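import Pool.Agent.Helper61_LT.Stmts
import Pool.Agent.Helper61_LT.Tools

/-!
# LT: the determinant of `1 + A` for a matrix of small rank (module DET)
-/

set_option autoImplicit false

namespace Pool.Agent.LT.H11

open Matrix Pool.Agent.LT

/-- The determinant is at most the power of the operator norm. -/
theorem det_le {κ : Type} [Fintype κ] [DecidableEq κ] (B : Matrix κ κ ℝ) (K : ℝ) (hK : 0 ≤ K)
    (hB : Bd B K) : |B.det| ≤ K ^ Fintype.card κ := by
  have hH : (Bᵀ * B).IsHermitian := by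
    have := Matrix.isHermitian_conjTranspose_mul_self B
    rwa [Matrix.conjTranspose_eq_transpose_of_trivial] at this
  have key : ∀ i, 0 ≤ hH.eigenvalues i ∧ hH.eigenvalues i ≤ K ^ 2 := by
    intro i
    set v : κ → ℝ := (hH.eigenvectorBasis i).ofLp with hv
    have h1 : (Bᵀ * B) *ᵥ v = hH.eigenvalues i • v := hH.mulVec_eigenvectorBasis i
    have h2 : v ⬝ᵥ v = 1 := by
      have h := hH.eigenvectorBasis.orthonormal.1 i
      rw [dot_self_eq v]
      rw [show (WithLp.toLp 2 v : EuclideanSpace ℝ κ) = hH.eigenvectorBasis i from rfl, h]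
      norm_num
    have h3 : (B *ᵥ v) ⬝ᵥ (B *ᵥ v) = hH.eigenvalues i := by
      calc (B *ᵥ v) ⬝ᵥ (B *ᵥ v) = v ⬝ᵥ ((Bᵀ * B) *ᵥ v) := by
            rw [← Matrix.mulVec_mulVec, Matrix.dotProduct_mulVec v Bᵀ, Matrix.vecMul_transpose]
        _ = hH.eigenvalues i := by
            rw [h1, dotProduct_smul, h2, smul_eq_mul, mul_one]
    refine ⟨h3 ▸ dot_self_nonneg _, ?_⟩
    have h4 := hB v
    rw [h3, h2, mul_one] at h4
    exact h4
  have hdet : B.det ^ 2 = ∏ i, hH.eigenvalues i := by
    have h := hH.det_eq_prod_eigenvalues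
    rw [Matrix.det_mul, Matrix.det_transpose] at h
    rw [sq, h]
    simp
  apply abs_le_of_sq_le_sq _ (by positivity)
  rw [hdet, ← pow_mul, mul_comm, pow_mul]
  calc ∏ i, hH.eigenvalues i ≤ ∏ _i : κ, K ^ 2 :=
        Finset.prod_le_prod (fun i _ => (key i).1) (fun i _ => (key i).2)
    _ = (K ^ 2) ^ Fintype.card κ := by simp

theorem det : DetStmt := by
  intro ι _ _ A K hK hA
  set W : Submodule ℝ (EuclideanSpace ℝ ι) := Submodule.map
    (WithLp.linearEquiv 2 ℝ (ι → ℝ)).symm.toLinearMap (LinearMap.range A.mulVecLin) with hW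
  have hr : Module.finrank ℝ W = A.rank := by
    rw [hW]
    exact LinearEquiv.finrank_map_eq (WithLp.linearEquiv 2 ℝ (ι → ℝ)).symm _
  set b := stdOrthonormalBasis ℝ W with hb
  set U : Matrix ι (Fin (Module.finrank ℝ W)) ℝ :=
    Matrix.of fun i k => (b k : EuclideanSpace ℝ ι) i with hU
  have hUU : Uᵀ * U = 1 := by
    ext k l
    rw [Matrix.mul_apply, Matrix.one_apply]
    have h := orthonormal_iff_ite.1 b.orthonormal k l
    rw [Submodule.coe_inner, PiLp.inner_apply] at h
    rw [← h]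
    refine Finset.sum_congr rfl fun i _ => ?_
    simp [hU, mul_comm]
  have hUA : U * (Uᵀ * A) = A := by
    ext i j
    have hm : (WithLp.toLp 2 (fun i => A i j) : EuclideanSpace ℝ ι) ∈ W := by
      rw [hW]
      refine ⟨fun i => A i j, ⟨Pi.single j 1, ?_⟩, rfl⟩
      rw [Matrix.mulVecLin_apply, Matrix.mulVec_single_one]
      rfl
    have h := b.sum_repr' ⟨_, hm⟩
    have h' := congrArg (fun w : W => (w : EuclideanSpace ℝ ι) i) h
    simp only at h'
    refine Eq.trans ?_ h'
    rw [Matrix.mul_apply, Submodule.coe_sum, WithLp.ofLp_sum, Finset.sum_apply]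
    refine Finset.sum_congr rfl fun k _ => ?_
    rw [Submodule.coe_smul, PiLp.smul_apply, smul_eq_mul, mul_comm, Submodule.coe_inner,
      PiLp.inner_apply, Matrix.mul_apply]
    congr 1
    refine Finset.sum_congr rfl fun l _ => ?_
    simp [hU, mul_comm]
  have hBU : Bd U 1 := by
    intro x
    rw [one_pow, one_mul]
    apply le_of_eq
    calc (U *ᵥ x) ⬝ᵥ (U *ᵥ x) = x ⬝ᵥ ((Uᵀ * U) *ᵥ x) := by
          rw [← Matrix.mulVec_mulVec, Matrix.dotProduct_mulVec x Uᵀ, Matrix.vecMul_transpose]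
      _ = x ⬝ᵥ x := by rw [hUU, Matrix.one_mulVec]
  have hdet : (1 + A).det = (1 + (Uᵀ * A) * U).det := by
    conv_lhs => rw [← hUA]
    rw [Matrix.det_one_add_mul_comm]
  rw [hdet]
  have hB : Bd (1 + (Uᵀ * A) * U) (1 + K) := by
    refine bd_one.add ?_ zero_le_one hK
    have := ((Bd.transpose zero_le_one hBU).mul hA).mul hBU
    simpa using this
  have := det_le _ (1 + K) (by linarith) hB
  rw [Fintype.card_fin] at this
  exact this.trans (le_of_eq (by rw [hr]))

end Pool.Agent.LT.H11
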